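import Pool.Agent.R730.MT.ASM2

/-!
The monotone triangle polynomial at a row with one hole and one descent.
-/

namespace Pool.Agent.Results.MP_0e5572_co.HoleDescent

open Pool.Agent.R730.MT

/-- the sequence `(1, ..., i-1, i+1, i, i+1, ..., n)` -/
def hseq (n i : ℕ) : List ℤ := up 1 (i - 1) ++ [(i : ℤ) + 1] ++ up i (n + 1 - i)

/-- There is exactly one family of polynomials counting monotone triangles, and its value at
`h_{n,i}` is the sum of `(i - j) A_{n,j}` over `j = 1, ..., n`. -/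
theorem result :
    ∃ α : (∀ n, MvPolynomial (Fin n) ℚ), (∀ n p, IsMTPoly n p ↔ p = α n) ∧
      ∀ n i : ℕ, 1 ≤ i → i + 1 ≤ n →
        valAt α (hseq n i) = ∑ j : Fin n, ((i : ℚ) - ((j : ℕ) + 1)) * (refASM n j : ℚ) := by
  refine ⟨mtp, isMTPoly_iff, ?_⟩
  intro n i hi hin
  have hlen : (hseq n i).length = n + 1 := by
    simp only [hseq, List.length_append, length_up, List.length_singleton]
    omega
  rw [valAt_eq hlen, sum_linear n (by omega)]
  simp only [hseq, wd_append, wd_up, wd_cons, wd_nil, mul_one]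
  obtain ⟨p, rfl⟩ : ∃ p, i = p + 1 := ⟨i - 1, by omega⟩
  obtain ⟨q, rfl⟩ : ∃ q, n = p + q + 2 := ⟨n - (p + 2), by omega⟩
  have h := Hv_eq p q
  unfold Hv at h
  have e1 : p + 1 - 1 = p := by omega
  have e2 : p + q + 2 + 1 - (p + 1) = q + 2 := by omega
  have e3 : ((p + 1 : ℕ) : ℤ) + 1 = p + 2 := by push_cast; ring
  have e4 : ((p + 1 : ℕ) : ℤ) = p + 1 := by push_cast; ring
  rw [e1, e2, e3, e4, h]
  push_cast
  ring

end Pool.Agent.Results.MP_0e5572_co.HoleDescent
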